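import Pool.Agent.W586.CS.Stm

set_option autoImplicit false

/-!
# Assembly of the main theorem, real form
-/

namespace Pool.Agent.W368.CS.CORE

open Pool.Agent.W586.CS

theorem main : S_GAU → S_IP → S_SYM → S_SQ → S_FIL1 → S_FIL2 → S_PAR → S_KB → S_MPOS → S_LEV →
    S_LOWER → S_CPT → S_ABS → S_CORE := by
  intro hGAU hIP hSYM hSQ hFIL1 hFIL2 hPAR hKB hMPOS hLEV hLOWER hCPT hABS
  intro d ι _ _ A hA
  by_contra hcon
  have hinj : ∀ (x : Fin d → ℝ) (ξ : Finset (Fin d) → ι → ℝ), Lx A x ξ = 0 → ξ = 0 := by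
    intro x ξ h
    by_contra h'
    exact hcon ⟨x, ξ, h', h⟩
  obtain ⟨δ, hδ, hδ2⟩ := hCPT d ι A hinj
  set s : ℝ := 1 + ((d : ℝ) + 1) / δ with hs
  have hd0 : (0 : ℝ) ≤ (d : ℝ) := Nat.cast_nonneg d
  have hq : 0 < ((d : ℝ) + 1) / δ := by positivity
  have hs1 : 1 ≤ s := by rw [hs]; linarith
  have hs0 : 0 < s := by linarith
  have hsd : (d : ℝ) + 1 ≤ s ^ 2 * δ := by
    have h1 : ((d : ℝ) + 1) / δ ≤ s := by rw [hs]; linarith
    have h2 : (d : ℝ) + 1 ≤ s * δ := by rwa [div_le_iff₀ hδ] at h1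
    have h3 : s * δ ≤ s ^ 2 * δ := by
      apply mul_le_mul_of_nonneg_right _ hδ.le
      nlinarith
    linarith
  let A' : Fin d → Matrix ι ι ℝ := fun j => s • A j
  have hA' : ∀ j, (A' j).IsSymm := by
    intro j
    change (s • A j).transpose = s • A j
    rw [Matrix.transpose_smul, (hA j)]
  have hLx : ∀ (x : Fin d → ℝ) (ξ : Finset (Fin d) → ι → ℝ) I a,
      Lx A' x ξ I a = s * Lx A (fun j => s⁻¹ * x j) ξ I a := by
    intro x ξ I a
    simp only [Lx, A', Matrix.smul_apply, smul_eq_mul]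
    rw [Finset.mul_sum]
    refine Finset.sum_congr rfl fun j _ => ?_
    have h1 : ∑ b, s * A j a b * ξ (fl j I) b = s * ∑ b, A j a b * ξ (fl j I) b := by
      rw [Finset.mul_sum]
      exact Finset.sum_congr rfl fun b _ => by ring
    rw [h1]
    have h2 : x j = s * (s⁻¹ * x j) := by
      rw [← mul_assoc, mul_inv_cancel₀ hs0.ne', one_mul]
    nth_rewrite 1 [h2]
    ring
  have hnsq : ∀ (x : Fin d → ℝ) (ξ : Finset (Fin d) → ι → ℝ),
      nsq (Lx A' x ξ) = s ^ 2 * nsq (Lx A (fun j => s⁻¹ * x j) ξ) := by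
    intro x ξ
    unfold nsq
    rw [Finset.mul_sum]
    refine Finset.sum_congr rfl fun I _ => ?_
    rw [Finset.mul_sum]
    refine Finset.sum_congr rfl fun a _ => ?_
    rw [hLx]
    ring
  have hlow : ∀ (x : Fin d → ℝ) (ξ : Finset (Fin d) → ι → ℝ),
      ((d : ℝ) + 1) * nsq ξ ≤ nsq (Lx A' x ξ) := by
    intro x ξ
    rw [hnsq]
    have h1 := hδ2 (fun j => s⁻¹ * x j) ξ
    have h2 : 0 ≤ nsq ξ := Finset.sum_nonneg fun _ _ => Finset.sum_nonneg fun _ _ => sq_nonneg _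
    calc ((d : ℝ) + 1) * nsq ξ ≤ (s ^ 2 * δ) * nsq ξ := mul_le_mul_of_nonneg_right hsd h2
      _ = s ^ 2 * (δ * nsq ξ) := by ring
      _ ≤ _ := mul_le_mul_of_nonneg_left h1 (sq_nonneg s)
  obtain ⟨g⟩ := hGAU d
  obtain ⟨i1, i2, i3, i4, -⟩ := hIP d ι g
  obtain ⟨κ, hκ, hκ2⟩ := hKB d ι g A'
  obtain ⟨p1, p2, p3, p4, p5, p6⟩ := hPAR d ι
  obtain ⟨v, v1, v2, v3⟩ := p6 inferInstance
  refine hABS (V d ι) (ip g) (Fil d ι) (Ev d ι) (Od d ι) (B0 d ι) (KK A') κ v i1 i2 i3 i4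
    (fun m => hFIL1 d ι m) (fun m => (hFIL2 d ι m).1) (fun m => (hFIL2 d ι m).2.1)
    (fun m => (hFIL2 d ι m).2.2.1 A') (hSYM d ι g) hκ hκ2 (fun m => hLEV d ι g m) p1 (p2 g) p3 p4
    (p5 A') v1 v2 v3 ?_ (hLOWER d ι g A' hA' hlow)
  intro f hf hB
  by_contra hf0
  have h1 := hSQ d ι f
  rw [hB, map_zero] at h1
  have h2 : MM f = 0 := by
    rcases smul_eq_zero.1 h1.symm with h | h
    · norm_num at h
    · exact h
  have h3 := hMPOS d ι g f hf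
  rw [h2, i1 f 0] at h3
  have h4 := i3 0 0 f
  rw [zero_smul, zero_mul] at h4
  have h5 := i4 f hf0
  linarith

end Pool.Agent.W368.CS.CORE
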